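import Pool.Agent.R121.ShufflePoset

set_option autoImplicit false

/-!
# The major index on the 123-avoiding linear extensions of `EN_{s,2}`

A linear extension of a product of a 2-chain and an `s`-chain is a shuffle of the two `s`-chains and
corresponds to a Catalan word `w`. Both chains are decreasing, so that `123` is avoided, and
`maj π = s(2s-1) - (the sum of the positions of the peaks of w) = s(2s-1) - s - maj w`. The identity is
the palindromicity of `c_s(q)`.
-/

namespace Pool.Agent.Results.MP_5b4ede_co.MajENs2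

open Finset Polynomial Pool.Agent.R121.Sh

/-- The order of `EN_{s,t}` on `{0, …, st-1}` (the label of the problem is `x + 1`): if
`x = (j-1)t + (k-1)` and `y = (j'-1)t + (k'-1)` then `x ⪯ y` iff `j' ≤ j` and `k ≤ k'`. -/
def ENle (t x y : ℕ) : Prop := y / t ≤ x / t ∧ x % t ≤ y % t

/-- the chains -/
def γ (s : ℕ) (b : Bool) (c : ℕ) : ℕ := if b = true then 2 * s - 1 - 2 * c else 2 * s - 2 - 2 * c

lemma chains (s : ℕ) : Chains s (γ s) (ENle 2) where
  lt := by
    intro b c hc
    unfold γ
    split_ifs <;> omega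
  surj := by
    intro x hx
    by_cases h : x % 2 = 0
    · exact ⟨false, s - 1 - x / 2, by omega, by simp [γ]; omega⟩
    · exact ⟨true, s - 1 - x / 2, by omega, by simp [γ]; omega⟩
  inj := by
    intro b c b' c' hc hc' h
    unfold γ at h
    cases b <;> cases b' <;> simp at h ⊢ <;> omega
  rel := by
    intro b c b' c' hc hc'
    unfold γ ENle
    cases b <;> cases b' <;> simp <;> omega

/-- the sum of the positions of the peaks -/
def pk {m : ℕ} (w : Fin m → Bool) : ℕ :=
  ∑ j : Fin m, if w ⟨j.1 - 1, by omega⟩ = false ∧ w j = true then j.1 else 0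

lemma maj_add (s : ℕ) (π : Equiv.Perm (Fin (2 * s))) (hπ : LE (ENle 2) π) :
    maj (fun i => (π i : ℕ)) + pk (word s (γ s) π) = s * (2 * s - 1) := by
  rw [← sum_idx (2 * s) s rfl]
  unfold maj pk
  rw [← sum_add_distrib]
  apply sum_congr rfl
  intro j _
  by_cases hj : 0 < j.1
  · obtain ⟨a, b, h1, h2, h3, h4⟩ := local_cases (chains s) rfl hπ j hj
    rcases h4 with ⟨h5, h6, h7, h8, h9⟩ | ⟨h5, h6, h7, h8, h9⟩ | ⟨h5, h6, h7, h8, h9⟩ |
      ⟨h5, h6, h7, h8, h9⟩
    · simp only [h5, h6, h7, h8, γ]
      simp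
      omega
    · simp only [h5, h6, h7, h8, γ]
      simp
      omega
    · simp only [h5, h6, h7, h8, γ]
      simp
      omega
    · simp only [h5, h6, h7, h8, γ]
      simp
      omega
  · have : j.1 = 0 := by omega
    simp [this]

lemma abel (W : ℕ → Bool) (k : ℕ) :
    (∑ j ∈ range k, if W (j - 1) = false ∧ W j = true then j else 0) +
      (∑ j ∈ range k, if W j = true then 1 else 0) =
    (∑ j ∈ range k, if (W j).toNat < (W (j - 1)).toNat then j else 0) +
      (if W (k - 1) = true then k else 0) := by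
  induction k with
  | zero => simp
  | succ k ih =>
    rw [sum_range_succ, sum_range_succ, sum_range_succ, Nat.add_sub_cancel]
    rcases Nat.eq_zero_or_pos k with rfl | hk
    · cases W 0 <;> simp
    · cases h1 : W (k - 1) <;> cases h2 : W k <;> simp [h1] at ih ⊢ <;> omega

lemma pk_eq {s : ℕ} (hs : 1 ≤ s) (w : Fin (2 * s) → Bool) (hw : Cat w) :
    pk w = maj (fun i => (w i).toNat) + s := by
  set W : ℕ → Bool := fun j => if h : j < 2 * s then w ⟨j, h⟩ else false with hW
  have hWw : ∀ j : Fin (2 * s), W j.1 = w j := by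
    intro j
    simp only [hW]
    rw [dif_pos j.2]
  have hWw' : ∀ j : Fin (2 * s), W (j.1 - 1) = w ⟨j.1 - 1, by omega⟩ := by
    intro j
    exact hWw ⟨j.1 - 1, by omega⟩
  have h1 := abel W (2 * s)
  rw [← Fin.sum_univ_eq_sum_range (fun j => if W (j - 1) = false ∧ W j = true then j else 0),
    ← Fin.sum_univ_eq_sum_range (fun j => if W j = true then 1 else 0),
    ← Fin.sum_univ_eq_sum_range (fun j => if (W j).toNat < (W (j - 1)).toNat then j else 0)] at h1
  simp only [hWw, hWw'] at h1
  obtain ⟨hB, hE⟩ := hw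
  have hadd := cnt_add w (le_refl (2 * s))
  have h2 : ∑ j : Fin (2 * s), (if w j = true then 1 else 0) = s := by
    have h3 : cnt w true (2 * s) = s := by omega
    rw [cnt_eq_sum] at h3
    refine Eq.trans ?_ h3
    apply sum_congr rfl
    intro j _
    simp [j.2]
  have h4 : W (2 * s - 1) = true := by
    rw [hWw ⟨2 * s - 1, by omega⟩]
    by_contra h5
    rw [Bool.not_eq_true] at h5
    have h6 := cnt_succ w false ⟨2 * s - 1, by omega⟩
    have h7 := cnt_succ w true ⟨2 * s - 1, by omega⟩
    simp only [h5] at h6 h7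
    simp at h6 h7
    have h8 := hB (2 * s - 1) (by omega)
    have e : 2 * s - 1 + 1 = 2 * s := by omega
    rw [e] at h6 h7
    omega
  rw [h2, h4] at h1
  simp only [if_true] at h1
  unfold pk maj
  simp only
  omega

open Classical in
/-- For every `s ≥ 1` the generating polynomial of the major index over the `123`-avoiding linear
extensions of `EN_{s,2}` is `q^(2 binom(s,2)) c_s(q)`, where `c_s(q)` is the generating polynomial of
the major index over the Catalan words of length `2s`. -/
theorem result (s : ℕ) (hs : 1 ≤ s) :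
    ∑ π ∈ univ.filter (fun π : Equiv.Perm (Fin (2 * s)) => LE (ENle 2) π ∧ Avoids123 π),
      (X : ℤ[X]) ^ maj (fun i => (π i : ℕ)) =
    X ^ (2 * s.choose 2) * ∑ w ∈ univ.filter (fun w : Fin (2 * s) → Bool => Cat w),
      X ^ maj (fun i => (w i).toNat) := by
  have hch : 2 * s.choose 2 = s * (s - 1) := by
    rw [Nat.choose_two_right]
    exact Nat.mul_div_cancel' (Nat.even_mul_pred_self s).two_dvd
  apply final (n := s) rfl
  intro K _ q hq f hf
  rw [map_sum]
  simp only [map_pow, hf]
  rw [sum_linExt (chains s) rfl (fun π => Avoids123 π) (fun _ => True)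
    (fun π => q ^ maj (fun i => (π i : ℕ)))
    (fun w => q ^ (2 * s.choose 2 + s * (s - 1)) * q⁻¹ ^ maj (fun i => (w i).toNat))]
  · rw [← mul_sum]
    simp only [and_true]
    rw [sum_maj q⁻¹ rfl]
  · intro π hπ
    simp only [iff_true]
    apply avoids123 (chains s) rfl hπ
    intro b c c' h1 h2
    unfold γ
    split_ifs <;> omega
  · intro π hπ _
    have h1 := maj_add s π hπ
    have h0 : Cat (word s (γ s) π) :=
      ⟨word_ballot (chains s) rfl hπ, by rw [word_false (chains s) rfl, word_false (chains s) rfl]⟩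
    rw [pk_eq hs _ h0] at h1
    have h2 : 2 * s.choose 2 + s * (s - 1) =
        maj (fun i => (π i : ℕ)) + maj (fun i => (word s (γ s) π i).toNat) := by
      rw [hch]
      obtain ⟨t, rfl⟩ : ∃ t, s = t + 1 := ⟨s - 1, by omega⟩
      have : 2 * (t + 1) - 1 = 2 * t + 1 := by omega
      rw [this] at h1
      rw [Nat.add_sub_cancel]
      have e : (t + 1) * (2 * t + 1) = (t + 1) * t + (t + 1) * t + (t + 1) := by ring
      rw [e] at h1
      omega
    rw [h2, pow_add, mul_assoc, ← mul_pow, mul_inv_cancel₀ hq, one_pow, mul_one]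

end Pool.Agent.Results.MP_5b4ede_co.MajENs2
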